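import Mathlib
import Pool.Agent.H168.SN.OnePair

/-!
# MP_9508c8_co: transversals of submatrices of even cyclic addition tables with few repeated classes

Here `n = 2 ^ a * m` with `m` odd, and `A`, `B` are subsets of `ℤ/n` of the same size.
-/

set_option autoImplicit false

namespace Pool.Agent.Results.MP_9508c8_co.FewRepeatedClasses

/-- the elements of `S` are pairwise incongruent modulo the odd part `m` of `2 ^ a * m` -/
def Incongruent (a m : ℕ) (S : Finset (ZMod (2 ^ a * m))) : Prop :=
  Set.InjOn (ZMod.castHom (dvd_mul_left m (2 ^ a)) (ZMod m)) (S : Set (ZMod (2 ^ a * m)))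

/-- all elements of `S` but one are pairwise incongruent modulo `m`; for `n = 2 m` this says that `S` is not empty
and contains at most one pair `x, x + m` -/
def AlmostIncongruent (m : ℕ) (S : Finset (ZMod (2 ^ 1 * m))) : Prop :=
  ∃ s ∈ S, Incongruent 1 m (S.erase s)

/-- a transversal of the matrix of sums: a bijection `f` from `A` to `B` with pairwise different sums `z + f z` -/
def HasTransversal {G : Type} [AddCommGroup G] (A B : Finset G) : Prop :=
  ∃ f : G → G, Set.BijOn f (A : Set G) (B : Set G) ∧ Set.InjOn (fun z => z + f z) (A : Set G)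

/-- the `t`-th elementary symmetric function of the elements `η ^ z`, `z ∈ A` -/
noncomputable def elemSymm {n : ℕ} (η : AlgebraicClosure (ZMod 2)) (t : ℕ) (A : Finset (ZMod n)) :
    AlgebraicClosure (ZMod 2) :=
  ∑ S ∈ Finset.powersetCard t A, ∏ z ∈ S, η ^ z.val

theorem result (m : ℕ) (hm : Odd m) :
    (∀ (a : ℕ) (A B T : Finset (ZMod (2 ^ a * m))), A.card = B.card → T ⊆ B → Incongruent a m T →
      Incongruent a m (B \ T) → ∀ η : AlgebraicClosure (ZMod 2), IsPrimitiveRoot η m →
      elemSymm η T.card A ≠ 0 → HasTransversal A B) ∧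
    (∀ (a : ℕ) (A B : Finset (ZMod (2 ^ a * m))), A.card = B.card →
      (Incongruent a m A ∨ Incongruent a m B) → HasTransversal A B) ∧
    (∀ A B : Finset (ZMod (2 ^ 1 * m)), A.card = B.card → AlmostIncongruent m B → ¬ HasTransversal A B →
      ∃ H : AddSubgroup (ZMod (2 ^ 1 * m)), Even (Nat.card H) ∧
        ∃ a : ZMod (2 ^ 1 * m), ∀ x : ZMod (2 ^ 1 * m), x ∈ A ↔ x - a ∈ H) ∧
    (∀ A B : Finset (ZMod (2 ^ 1 * m)), A.card = B.card → AlmostIncongruent m A → AlmostIncongruent m B →
      ¬ HasTransversal A B →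
      ∃ H : AddSubgroup (ZMod (2 ^ 1 * m)), Even (Nat.card H) ∧
        ∃ a b : ZMod (2 ^ 1 * m), (∀ x : ZMod (2 ^ 1 * m), x ∈ A ↔ x - a ∈ H) ∧
          (∀ x : ZMod (2 ^ 1 * m), x ∈ B ↔ x - b ∈ H)) := by
  classical
  refine ⟨?_, ?_, ?_, ?_⟩
  · intro a A B T hcard hT h1 h2 η hη he
    refine Pool.Agent.H168.SN.main2 a m hm A B T hcard hT h1 ?_ η hη he
    have h3 := h2
    simp only [Incongruent] at h3
    convert h3
  · intro a A B hcard h
    rcases h with h | h
    · exact Pool.Agent.H168.SN.swap_map (Pool.Agent.H168.SN.main a m hm B A hcard.symm h)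
    · exact Pool.Agent.H168.SN.main a m hm A B hcard h
  · intro A B hcard hB hno
    obtain ⟨b, hb, hinj⟩ := hB
    obtain ⟨H, _, hev, c, hc⟩ := Pool.Agent.H168.SN.onePair m hm A B hcard b hb
      (by simp only [Incongruent] at hinj; convert hinj) hno
    exact ⟨H, hev, c, hc⟩
  · intro A B hcard hA hB hno
    obtain ⟨b, hb, hinjb⟩ := hB
    obtain ⟨a, ha, hinja⟩ := hA
    obtain ⟨H, hH, hev, c, hc⟩ := Pool.Agent.H168.SN.onePair m hm A B hcard b hb
      (by simp only [Incongruent] at hinjb; convert hinjb) hno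
    obtain ⟨H', hH', _, c', hc'⟩ := Pool.Agent.H168.SN.onePair m hm B A hcard.symm a ha
      (by simp only [Incongruent] at hinja; convert hinja)
      (fun h => hno (Pool.Agent.H168.SN.swap_map h))
    have hHH : H' = H := by rw [hH', hH, hcard]
    exact ⟨H, hev, c, c', hc, by rw [← hHH]; exact hc'⟩

end Pool.Agent.Results.MP_9508c8_co.FewRepeatedClasses
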