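import Pool.Agent.H321.SN.Sub

/-!
# Snevily's question for the cyclic groups of order `2 p ^ r`

Let `p` be an odd prime and `n = 2 p ^ r`. We call a subset of `ℤ / n` small if it contains fewer than
`p` even and fewer than `p` odd residues (for `r = 1`: no parity class is contained in it).

(1) If `A` is small and `|A|` is odd, or the number of odd elements of `A` is even, then `M(A, B)` has a
transversal for every `B` with `|B| = |A|`.
(2) If `A` and `B` are both small, `|A| = |B|` and `M(A, B)` has no transversal, then `|A| ≡ 2 (mod 4)`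
and `A` and `B` are unions of cosets of the subgroup `{0, n / 2}` of order two.
(3) For all even numbers `N` with an odd prime factor: if `N = d n`, `A` is as in (1) and `a₀` is in
`ℤ / N`, then `M(a₀ + d A, B)` has a transversal for every `B` in `ℤ / N` with `|B| = |A|`.

Proof. Let `ζ` be a primitive `n`-th root of unity. As in the work of Dasgupta, Károlyi, Serra and
Szegedy, `∑_σ sgn σ det ((x_i y_(σ i)) ^ (c_j)) = per (x_i ^ (c_j)) det (y_i ^ (c_j))`; if the right side is
not zero for `x_i = ζ ^ (a_i)`, `y_i = ζ ^ (b_i)`, then some `σ` gives distinct sums. Modulo a prime above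
`p` one has `ζ = -1`, so the permanent becomes the one of a matrix of signs, which depends on the numbers
`u` and `v` of even and odd `a_i` only; it is `u! v!` times a coefficient of `∏ (X + (-1) ^ (c_j))`. For the
exponents `0, …, k-1` this coefficient is a binomial coefficient if `k` is odd or `v` is even, and for the
exponents `0, …, k-2, k` it is twice a binomial coefficient if `k` is even and `v` is odd. In the second
case the determinant is the Vandermonde determinant times `∑ y_i`, and this sum of roots of unity is zero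
only if `B` is a union of cosets of `{0, n / 2}` or contains `p` elements of the same parity.
-/

set_option autoImplicit false

namespace Pool.Agent.Results.MP_9508c8_co.TwicePrimePower

open Pool.Agent.H321.SN (HasTransversal ev od)

/-- **Main result.** `HasTransversal A B`: `M(A, B)` has a transversal (a map `f` which is a bijection
from `A` to `B` with distinct sums `a + f a`, as in the frozen statement); `ev A` and `od A` are the
numbers of even and odd elements of `A`. -/
theorem result (p : ℕ) (hp : p.Prime) (hp2 : p ≠ 2) (r : ℕ) (hr : 1 ≤ r) (n : ℕ)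
    (hn : n = 2 * p ^ r) (A B : Finset (ZMod n)) (hAB : A.card = B.card) :
    -- (1)
    (ev A < p → od A < p → Odd A.card ∨ Even (od A) → HasTransversal A B ∧ HasTransversal B A) ∧
    -- (2)
    (ev A < p → od A < p → ev B < p → od B < p → ¬ HasTransversal A B →
      A.card % 4 = 2 ∧ ev A = od A ∧ ev B = od B ∧
      (∀ x ∈ A, x + ((p ^ r : ℕ) : ZMod n) ∈ A) ∧ (∀ x ∈ B, x + ((p ^ r : ℕ) : ZMod n) ∈ B)) ∧
    -- (3)
    (ev A < p → od A < p → Odd A.card ∨ Even (od A) → ∀ d N : ℕ, 0 < d → N = d * n →
      ∀ (a₀ : ZMod N) (B' : Finset (ZMod N)), B'.card = A.card →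
        HasTransversal (A.image fun x => a₀ + ((d * x.val : ℕ) : ZMod N)) B') := by
  have : Fact p.Prime := ⟨hp⟩
  obtain rfl : n = p ^ r * 2 := by rw [hn, mul_comm]
  refine ⟨fun h1 h2 h3 => Pool.Agent.H321.SN.both hp2 hr A B hAB h1 h2 (Or.inl h3),
    fun h1 h2 h3 h4 hno => ?_, fun h1 h2 h3 d N hd hN a₀ B' hB' =>
      Pool.Agent.H321.SN.sub_fin hp2 hr hd hN a₀ A B' hB'.symm h1 h2 h3⟩
  have e1 := Pool.Agent.H321.SN.ev_add_od A
  have e2 := Pool.Agent.H321.SN.ev_add_od B
  have k1 : ¬ ((Odd A.card ∨ Even (od A)) ∨ (ev B < p ∧ od B < p ∧ ev B ≠ od B)) := fun h =>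
    hno (Pool.Agent.H321.SN.both hp2 hr A B hAB h1 h2 h).1
  have k2 : ¬ ((Odd B.card ∨ Even (od B)) ∨ (ev A < p ∧ od A < p ∧ ev A ≠ od A)) := fun h =>
    hno (Pool.Agent.H321.SN.both hp2 hr B A hAB.symm h3 h4 h).2
  have k11 : ∀ x ∈ B, x + ((p ^ r : ℕ) : ZMod (p ^ r * 2)) ∈ B := by
    by_contra hc
    push Not at hc
    exact hno (Pool.Agent.H321.SN.coset hp2 hr A B hAB h1 h2 (fun _ => ⟨h3, h4, hc⟩)).1
  have k12 : ∀ x ∈ A, x + ((p ^ r : ℕ) : ZMod (p ^ r * 2)) ∈ A := by
    by_contra hc
    push Not at hc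
    exact hno (Pool.Agent.H321.SN.coset hp2 hr B A hAB.symm h3 h4 (fun _ => ⟨h1, h2, hc⟩)).2
  push Not at k1 k2
  obtain ⟨⟨k3, k4⟩, k5⟩ := k1
  obtain ⟨⟨k6, k7⟩, k8⟩ := k2
  have k9 := k5 h3 h4
  have k10 := k8 h1 h2
  rw [Nat.not_even_iff_odd] at k4
  obtain ⟨w, hw⟩ := k4
  exact ⟨by omega, k10, k9, k12, k11⟩

end Pool.Agent.Results.MP_9508c8_co.TwicePrimePower
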